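import Pool.Agent.Helper88.AD.Span

/-! Upper bounds and comparison of the dimensions. -/

namespace Pool.Agent.Helper88.AD

variable {d : ℕ}

open Module

instance (d : ℕ) : Module.Finite ℚ (Dg d →₀ ℚ) := inferInstance

theorem span_el (d : ℕ) : Submodule.span ℚ (Set.range fun w : List (Pt d) => el w) = ⊤ := by
  rw [eq_top_iff]
  intro v _
  induction v using Finsupp.induction_linear with
  | zero => exact Submodule.zero_mem _
  | add f g hf hg => exact Submodule.add_mem _ (hf trivial) (hg trivial)
  | single w c =>
    have : Finsupp.single w c = c • el w.1 := by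
      rw [el_of w.2, Finsupp.smul_single, smul_eq_mul, mul_one]
    rw [this]
    exact Submodule.smul_mem _ _ (Submodule.subset_span ⟨w.1, rfl⟩)

theorem finrank_AI_le (d : ℕ) : finrank ℚ (AI d) ≤ 2 ^ d * d.factorial := by
  let F : (Fin d → Bool) × Equiv.Perm (Fin d) → AI d := fun p => (relI d).mkQ (el (lr p.1 p.2))
  have hspan : Submodule.span ℚ (Set.range F) = ⊤ := by
    rw [eq_top_iff]
    intro v _
    obtain ⟨v, rfl⟩ := Submodule.mkQ_surjective _ v
    have hv : v ∈ Submodule.span ℚ (Set.range fun w : List (Pt d) => el w) := by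
      rw [span_el]; trivial
    induction hv using Submodule.span_induction with
    | mem x hx =>
      obtain ⟨w, rfl⟩ := hx
      have h := span_all w
      unfold VV at h
      obtain ⟨a, ha, b, hb, hab⟩ := Submodule.mem_sup.1 h
      have h0 : (relI d).mkQ a = 0 := (Submodule.Quotient.mk_eq_zero _).2 ha
      simp only
      rw [← hab, map_add, h0, zero_add]
      have : Submodule.map (relI d).mkQ (Submodule.span ℚ (Set.range
          fun p : (Fin d → Bool) × Equiv.Perm (Fin d) => el (lr p.1 p.2))) =
          Submodule.span ℚ (Set.range F) := by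
        rw [Submodule.map_span, ← Set.range_comp]; rfl
      rw [← this]
      exact Submodule.mem_map_of_mem hb
    | zero => rw [map_zero]; exact Submodule.zero_mem _
    | add x y _ _ hx hy => rw [map_add]; exact Submodule.add_mem _ (hx trivial) (hy trivial)
    | smul c x _ hx => rw [map_smul]; exact Submodule.smul_mem _ _ (hx trivial)
  have h := finrank_range_le_card (R := ℚ) F
  unfold Set.finrank at h
  rw [hspan, finrank_top] at h
  refine h.trans ?_
  rw [Fintype.card_prod, Fintype.card_fun, Fintype.card_bool, Fintype.card_fin,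
    Fintype.card_perm, Fintype.card_fin]

theorem relI_le_relS (d : ℕ) : relI d ≤ relS d := le_sup_left

theorem relI_le_relT (d : ℕ) : relI d ≤ relT d := le_sup_left

theorem finrank_AS_le_AI (d : ℕ) : finrank ℚ (AS d) ≤ finrank ℚ (AI d) :=
  LinearMap.finrank_le_finrank_of_surjective (f := Submodule.factor (relI_le_relS d))
    (Submodule.factor_surjective _)

theorem finrank_AT_le_AI (d : ℕ) : finrank ℚ (AT d) ≤ finrank ℚ (AI d) :=
  LinearMap.finrank_le_finrank_of_surjective (f := Submodule.factor (relI_le_relT d))
    (Submodule.factor_surjective _)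

theorem rev_lr (ε : Fin d → Bool) (σ : Equiv.Perm (Fin d)) (x : Fin d) :
    rev x (lr ε σ) = lr (Function.update ε x (!(ε x))) σ := by
  unfold rev lr
  rw [List.map_append, List.map_ofFn, List.map_ofFn]
  congr 1
  · congr 1
    funext i
    by_cases h : i = x
    · subst h; simp
    · simp [h]
  · congr 1
    funext k
    by_cases h : σ k = x
    · subst h; simp
    · simp [h]

/-- The span of the relations of the triangular quotient and of the forward words. -/
noncomputable def VT (d : ℕ) : Submodule ℚ (Dg d →₀ ℚ) := relT d ⊔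
    Submodule.span ℚ (Set.range fun σ : Equiv.Perm (Fin d) => el (lr (fun _ => true) σ))

theorem lr_mem_VT (ε : Fin d → Bool) (σ : Equiv.Perm (Fin d)) : el (lr ε σ) ∈ VT d := by
  induction hn : (Finset.univ.filter fun i => ε i = false).card generalizing ε with
  | zero =>
    have : ε = fun _ => true := by
      funext i
      rw [Finset.card_eq_zero, Finset.filter_eq_empty_iff] at hn
      have := hn (Finset.mem_univ i)
      simpa using this
    rw [this]
    exact Submodule.mem_sup_right (Submodule.subset_span ⟨σ, rfl⟩)
  | succ n ih =>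
    have hne : (Finset.univ.filter fun i => ε i = false).Nonempty := by
      rw [← Finset.card_pos]; omega
    obtain ⟨x, hx⟩ := hne
    have hx' : ε x = false := (Finset.mem_filter.1 hx).2
    have h1 : el (lr ε σ) + el (rev x (lr ε σ)) ∈ VT d :=
      Submodule.mem_sup_left (Submodule.mem_sup_right (Submodule.subset_span ⟨x, lr ε σ, rfl⟩))
    rw [rev_lr] at h1
    have h2 : el (lr (Function.update ε x (!(ε x))) σ) ∈ VT d := by
      apply ih
      have : (Finset.univ.filter fun i => Function.update ε x (!(ε x)) i = false) =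
          (Finset.univ.filter fun i => ε i = false).erase x := by
        ext i
        simp only [Finset.mem_filter, Finset.mem_univ, true_and, Finset.mem_erase]
        by_cases h : i = x
        · subst h; simp [hx']
        · simp [h]
      rw [this, Finset.card_erase_of_mem hx, hn]; rfl
    have : el (lr ε σ) = (el (lr ε σ) + el (lr (Function.update ε x (!(ε x))) σ)) -
        el (lr (Function.update ε x (!(ε x))) σ) := by abel
    rw [this]
    exact Submodule.sub_mem _ h1 h2

theorem VV_le_VT (d : ℕ) : VV d ≤ VT d := by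
  unfold VV
  rw [sup_le_iff]
  constructor
  · exact (relI_le_relT d).trans le_sup_left
  · rw [Submodule.span_le]
    rintro _ ⟨p, rfl⟩
    exact lr_mem_VT p.1 p.2

theorem finrank_AT_le (d : ℕ) : finrank ℚ (AT d) ≤ d.factorial := by
  let F : Equiv.Perm (Fin d) → AT d := fun σ => (relT d).mkQ (el (lr (fun _ => true) σ))
  have hspan : Submodule.span ℚ (Set.range F) = ⊤ := by
    rw [eq_top_iff]
    intro v _
    obtain ⟨v, rfl⟩ := Submodule.mkQ_surjective _ v
    have hv : v ∈ Submodule.span ℚ (Set.range fun w : List (Pt d) => el w) := by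
      rw [span_el]; trivial
    induction hv using Submodule.span_induction with
    | mem x hx =>
      obtain ⟨w, rfl⟩ := hx
      have h := VV_le_VT d (span_all w)
      unfold VT at h
      obtain ⟨a, ha, b, hb, hab⟩ := Submodule.mem_sup.1 h
      have h0 : (relT d).mkQ a = 0 := (Submodule.Quotient.mk_eq_zero _).2 ha
      simp only
      rw [← hab, map_add, h0, zero_add]
      have : Submodule.map (relT d).mkQ (Submodule.span ℚ (Set.range
          fun σ : Equiv.Perm (Fin d) => el (lr (fun _ => true) σ))) =
          Submodule.span ℚ (Set.range F) := by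
        rw [Submodule.map_span, ← Set.range_comp]; rfl
      rw [← this]
      exact Submodule.mem_map_of_mem hb
    | zero => rw [map_zero]; exact Submodule.zero_mem _
    | add x y _ _ hx hy => rw [map_add]; exact Submodule.add_mem _ (hx trivial) (hy trivial)
    | smul c x _ hx => rw [map_smul]; exact Submodule.smul_mem _ _ (hx trivial)
  have h := finrank_range_le_card (R := ℚ) F
  unfold Set.finrank at h
  rw [hspan, finrank_top] at h
  refine h.trans ?_
  rw [Fintype.card_perm, Fintype.card_fin]

theorem le_finrank_AT (hL : StmtLow) (d : ℕ) : d.factorial ≤ finrank ℚ (AT d) := by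
  obtain ⟨Φ, h0, h1⟩ := hL d
  let Ψ : AT d →ₗ[ℚ] (Equiv.Perm (Fin d) → ℚ) := (relT d).liftQ Φ (fun x hx => h0 x hx)
  have hsurj : Function.Surjective Ψ := by
    rw [← LinearMap.range_eq_top, eq_top_iff]
    intro v _
    have hv : v = ∑ σ, v σ • Ψ ((relT d).mkQ (el (lr (fun _ => true) σ))) := by
      funext τ
      rw [Finset.sum_apply]
      have : ∀ σ, (v σ • Ψ ((relT d).mkQ (el (lr (fun _ => true) σ)))) τ =
          if σ = τ then v σ else 0 := by
        intro σ
        have e1 : Ψ ((relT d).mkQ (el (lr (fun _ => true) σ))) = Pi.single σ 1 := by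
          rw [← h1 σ]; exact Submodule.liftQ_apply _ _ _
        rw [e1, Pi.smul_apply, Pi.single_apply, smul_eq_mul]
        by_cases h : σ = τ
        · simp [h]
        · rw [if_neg (fun h' => h h'.symm), if_neg h, mul_zero]
      rw [Finset.sum_congr rfl (fun σ _ => this σ)]
      simp
    rw [hv]
    exact Submodule.sum_mem _ fun σ _ => Submodule.smul_mem _ _ (LinearMap.mem_range_self _ _)
  have h := LinearMap.finrank_le_finrank_of_surjective hsurj
  rw [Module.finrank_fintype_fun_eq_card, Fintype.card_perm, Fintype.card_fin] at h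
  exact h

theorem low_of (hWS : StmtWS) (h1 : StmtR1) (h2 : StmtR2) (hE : StmtEval) : StmtLow := by
  intro d
  obtain ⟨Φ, hΦ0, hΦ⟩ := hWS (Lg (d + 1)) (EE (d + 1)) actM hM dM ([], (0, 0)) (h1 _) (h2 _) d
  let ev : (EE (d + 1) →ₗ[ℚ] EE (d + 1)) →ₗ[ℚ] (Equiv.Perm (Fin d) → ℚ) :=
    LinearMap.pi fun τ => (Finsupp.lapply
      ((List.ofFn fun i : Fin d => ((τ.symm i).castSucc, (τ.symm i).succ)), 0)) ∘ₗ
      LinearMap.applyₗ (Finsupp.single ([], Fin.last d) 1)
  refine ⟨ev ∘ₗ Φ, ?_, ?_⟩
  · intro x hx
    rw [LinearMap.comp_apply, hΦ0 x hx, map_zero]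
  · intro σ
    funext τ
    rw [LinearMap.comp_apply]
    change (Φ (el (lr (fun _ => true) σ)) (Finsupp.single ([], Fin.last d) 1)) _ = _
    rw [hΦ, hE d σ τ, Pi.single_apply]
    by_cases h : σ = τ
    · simp [h]
    · rw [if_neg h, if_neg (fun h' => h h'.symm)]

end Pool.Agent.Helper88.AD
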