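import Pool.Agent.Helper88.AD.Stmts

/-! Basic facts on arrow diagrams as words. -/

namespace Pool.Agent.Helper88.AD

theorem isD_iff {d : ℕ} (w : List (Pt d)) : IsD w ↔ w.Nodup ∧ ∀ p, p ∈ w := by
  constructor
  · intro h
    refine ⟨List.nodup_iff_count_le_one.2 fun p => (h p).le, fun p => ?_⟩
    exact List.one_le_count_iff.1 (h p).ge
  · rintro ⟨h1, h2⟩ p
    exact List.count_eq_one_of_mem h1 (h2 p)

theorem isD_perm {d : ℕ} {w w' : List (Pt d)} (h : w.Perm w') : IsD w ↔ IsD w' := by
  unfold IsD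
  constructor
  · intro H x; rw [← h.count_eq x]; exact H x
  · intro H x; rw [h.count_eq x]; exact H x

theorem el_of_not {d : ℕ} {w : List (Pt d)} (h : ¬ IsD w) : el w = 0 := by
  unfold el; rw [dif_neg h]

theorem el_of {d : ℕ} {w : List (Pt d)} (h : IsD w) : el w = Finsupp.single ⟨w, h⟩ 1 := by
  unfold el; rw [dif_pos h]

theorem isD_length {d : ℕ} {w : List (Pt d)} (h : IsD w) : w.length = 2 * d := by
  have h' := (isD_iff w).1 h
  have : w.toFinset = Finset.univ := by
    ext p; simp [h'.2 p]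
  have h2 := List.toFinset_card_of_nodup h'.1
  rw [this, Finset.card_univ] at h2
  rw [← h2]; simp [Nat.mul_comm]

theorem finiteDg (d : ℕ) : Finite (Dg d) := by
  have : {w : List (Pt d) | IsD w} ⊆ {w | w.length = 2 * d} := fun w hw => isD_length hw
  exact ((List.finite_length_eq (Pt d) (2 * d)).subset this).to_subtype

instance (d : ℕ) : Finite (Dg d) := finiteDg d

/-- The other endpoint of the same arrow. -/
def oth {d : ℕ} (p : Pt d) : Pt d := (p.1, !p.2)

theorem oth_oth {d : ℕ} (p : Pt d) : oth (oth p) = p := by simp [oth]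

theorem oth_ne {d : ℕ} (p : Pt d) : oth p ≠ p := by
  intro h; have := congrArg Prod.snd h; simp [oth] at this

theorem eq_or_oth {d : ℕ} {p q : Pt d} (h : p.1 = q.1) : p = q ∨ p = oth q := by
  rcases p with ⟨a, b⟩; rcases q with ⟨c, e⟩
  simp only at h; subst h
  cases b <;> cases e <;> simp [oth]

theorem isD_lr {d : ℕ} (ε : Fin d → Bool) (σ : Equiv.Perm (Fin d)) : IsD (lr ε σ) := by
  rw [isD_iff]
  constructor
  · unfold lr
    rw [List.nodup_append]
    refine ⟨?_, ?_, ?_⟩
    · rw [List.nodup_ofFn]; intro i j h; exact congrArg Prod.fst h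
    · rw [List.nodup_ofFn]; intro i j h; exact σ.injective (congrArg Prod.fst h)
    · intro p hp q hq
      rw [List.mem_ofFn] at hp hq
      obtain ⟨i, rfl⟩ := hp
      obtain ⟨k, rfl⟩ := hq
      intro h
      have h1 : i = σ k := congrArg Prod.fst h
      have h2 : ε i = !(ε (σ k)) := congrArg Prod.snd h
      rw [h1] at h2
      simp at h2
  · rintro ⟨z, b⟩
    unfold lr
    rw [List.mem_append, List.mem_ofFn, List.mem_ofFn]
    by_cases hb : b = ε z
    · left; exact ⟨z, by simp [hb]⟩
    · right; refine ⟨σ.symm z, ?_⟩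
      simp only [Equiv.apply_symm_apply, Prod.mk.injEq, true_and]
      cases b <;> cases h : ε z <;> simp_all

end Pool.Agent.Helper88.AD
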