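import Mathlib

/-!
# Arrow diagrams modulo 6T

An arrow diagram of degree `d` on an interval is written as a word of length `2 d` in the
endpoints of `d` named arrows, each endpoint occurring exactly once.
-/

namespace Pool.Agent.Helper88.AD

/-- An endpoint of one of `d` arrows: the name of the arrow, and `true` for its tail
(the point where the arrow starts), `false` for its head (the point where it ends). -/
abbrev Pt (d : ℕ) : Type := Fin d × Bool

/-- The word `w` is an arrow diagram (with named arrows): every endpoint occurs exactly once. -/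
def IsD {d : ℕ} (w : List (Pt d)) : Prop := ∀ x : Pt d, w.count x = 1

instance {d : ℕ} (w : List (Pt d)) : Decidable (IsD w) :=
  inferInstanceAs (Decidable (∀ x : Pt d, w.count x = 1))

/-- Arrow diagrams of degree `d` on the oriented interval, with named arrows. -/
abbrev Dg (d : ℕ) : Type := {w : List (Pt d) // IsD w}

/-- The basis vector of the diagram `w`; zero if the word `w` is not a diagram. -/
noncomputable def el {d : ℕ} (w : List (Pt d)) : Dg d →₀ ℚ :=
  if h : IsD w then Finsupp.single ⟨w, h⟩ 1 else 0

/-- Renaming the arrows by a permutation. -/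
def ren {d : ℕ} (σ : Equiv.Perm (Fin d)) (w : List (Pt d)) : List (Pt d) :=
  w.map fun p => (σ p.1, p.2)

/-- The endpoint on the arc `m` of an arrow `x` from the arc `i` to the arc `j`
(empty if `m` is neither `i` nor `j`). -/
def ep {d : ℕ} (x : Fin d) (i j m : Fin 3) : List (Pt d) :=
  if m = i then [(x, true)] else if m = j then [(x, false)] else []

/-- The word of the product `a_ij a_kl`, the first arrow being called `x` and the second `y`:
the interval meets the arcs number `τ 0`, `τ 1`, `τ 2` in this order, the words `u 0, …, u 3`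
hold the endpoints before, between and after the arcs, and on each arc the endpoint of `a_ij`
comes before the endpoint of `a_kl`. -/
def pr {d : ℕ} (u : Fin 4 → List (Pt d)) (τ : Equiv.Perm (Fin 3)) (x y : Fin d)
    (i j k l : Fin 3) : List (Pt d) :=
  u 0 ++ (ep x i j (τ 0) ++ ep y k l (τ 0)) ++ u 1 ++ (ep x i j (τ 1) ++ ep y k l (τ 1)) ++
    u 2 ++ (ep x i j (τ 2) ++ ep y k l (τ 2)) ++ u 3

/-- The left side of the 6T relation `[a_12, a_13] + [a_12, a_23] + [a_13, a_23] = 0`
(the arcs 1, 2, 3 are the elements `0`, `1`, `2` of `Fin 3`). -/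
noncomputable def sixT {d : ℕ} (u : Fin 4 → List (Pt d)) (τ : Equiv.Perm (Fin 3))
    (x y : Fin d) : Dg d →₀ ℚ :=
  (el (pr u τ x y 0 1 0 2) - el (pr u τ x y 0 2 0 1)) +
    (el (pr u τ x y 0 1 1 2) - el (pr u τ x y 1 2 0 1)) +
    (el (pr u τ x y 0 2 1 2) - el (pr u τ x y 1 2 0 2))

/-- Relations on the interval: renaming of the arrows and 6T. -/
noncomputable def relI (d : ℕ) : Submodule ℚ (Dg d →₀ ℚ) :=
  Submodule.span ℚ ({v | ∃ (w : List (Pt d)) (σ : Equiv.Perm (Fin d)), v = el w - el (ren σ w)} ∪
    {v | ∃ (u : Fin 4 → List (Pt d)) (τ : Equiv.Perm (Fin 3)) (x y : Fin d), v = sixT u τ x y})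

/-- Relations on the circle: those on the interval, and rotation of the word. -/
noncomputable def relS (d : ℕ) : Submodule ℚ (Dg d →₀ ℚ) :=
  relI d ⊔ Submodule.span ℚ {v | ∃ (p : Pt d) (w : List (Pt d)), v = el (p :: w) - el (w ++ [p])}

/-- Reversing the arrow `x`. -/
def rev {d : ℕ} (x : Fin d) (w : List (Pt d)) : List (Pt d) :=
  w.map fun p => if p.1 = x then (p.1, !p.2) else p

/-- Relations of the triangular quotient: those on the interval, and the relation that the
reversal of one arrow changes the sign. -/
noncomputable def relT (d : ℕ) : Submodule ℚ (Dg d →₀ ℚ) :=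
  relI d ⊔ Submodule.span ℚ {v | ∃ (x : Fin d) (w : List (Pt d)), v = el w + el (rev x w)}

/-- The degree `d` part of the space of arrow diagrams on the interval modulo 6T. -/
abbrev AI (d : ℕ) : Type := (Dg d →₀ ℚ) ⧸ relI d

/-- The degree `d` part of the space of arrow diagrams on the circle modulo 6T. -/
abbrev AS (d : ℕ) : Type := (Dg d →₀ ℚ) ⧸ relS d

/-- The degree `d` part of the triangular quotient of the space of arrow diagrams on the
interval modulo 6T. -/
abbrev AT (d : ℕ) : Type := (Dg d →₀ ℚ) ⧸ relT d

end Pool.Agent.Helper88.AD
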