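import Pool.Agent.Helper88.AD.Basic

/-! Straightening: the words with all left endpoints first span the space modulo 6T. -/

namespace Pool.Agent.Helper88.AD

variable {d : ℕ}

/-- The names of the arrows along the word. -/
def nm (w : List (Pt d)) : List (Fin d) := w.map Prod.fst

theorem nm_append (v w : List (Pt d)) : nm (v ++ w) = nm v ++ nm w := List.map_append

/-- Sum of the positions of the first endpoints. -/
def pot (w : List (Pt d)) : ℕ := ∑ z : Fin d, (nm w).idxOf z

/-- A word with three marked arcs. -/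
def W (u : Fin 4 → List (Pt d)) (A B C : List (Pt d)) : List (Pt d) :=
  u 0 ++ A ++ u 1 ++ B ++ u 2 ++ C ++ u 3

/-- Position of the first endpoint of an arrow `z` which does not meet the marked arcs. -/
def gg (u : Fin 4 → List (Pt d)) (a b c : ℕ) (z : Fin d) : ℕ :=
  if z ∈ nm (u 0) then (nm (u 0)).idxOf z
  else if z ∈ nm (u 1) then (u 0).length + a + (nm (u 1)).idxOf z
  else if z ∈ nm (u 2) then (u 0).length + a + (u 1).length + b + (nm (u 2)).idxOf z
  else (u 0).length + a + (u 1).length + b + (u 2).length + c + (nm (u 3)).idxOf z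

theorem nm_length (w : List (Pt d)) : (nm w).length = w.length := by simp [nm]

theorem idx_append (v w : List (Fin d)) (z : Fin d) :
    (v ++ w).idxOf z = if z ∈ v then v.idxOf z else v.length + w.idxOf z := by
  rw [List.idxOf_append]
  split_ifs
  · rfl
  · omega

theorem nm_nil : nm ([] : List (Pt d)) = [] := rfl

theorem nm_cons (p : Pt d) (w : List (Pt d)) : nm (p :: w) = p.1 :: nm w := rfl

theorem idx_W (u : Fin 4 → List (Pt d)) (A B C : List (Pt d)) (z : Fin d)
    (hA : z ∉ nm A) (hB : z ∉ nm B) (hC : z ∉ nm C) :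
    (nm (W u A B C)).idxOf z = gg u A.length B.length C.length z := by
  unfold W gg
  simp only [nm_append]
  by_cases h0 : z ∈ nm (u 0)
  · rw [if_pos h0]
    simp [idx_append, h0]
  · by_cases h1 : z ∈ nm (u 1)
    · rw [if_neg h0, if_pos h1]
      simp [idx_append, h0, h1, hA, nm_length]
      omega
    · by_cases h2 : z ∈ nm (u 2)
      · rw [if_neg h0, if_neg h1, if_pos h2]
        simp [idx_append, h0, h1, h2, hA, hB, nm_length]
        omega
      · rw [if_neg h0, if_neg h1, if_neg h2]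
        simp [idx_append, h0, h1, h2, hA, hB, hC, nm_length]
        omega

/-- Contribution of the arrows other than `x`, `y`. -/
def RS (u : Fin 4 → List (Pt d)) (a b c : ℕ) (x y : Fin d) : ℕ :=
  ∑ z ∈ (Finset.univ.erase x).erase y, gg u a b c z

theorem RS_le (u : Fin 4 → List (Pt d)) (x y : Fin d) : RS u 1 1 2 x y ≤ RS u 1 2 1 x y := by
  apply Finset.sum_le_sum
  intro z _
  unfold gg
  split_ifs <;> omega

theorem RS_le' (u : Fin 4 → List (Pt d)) (x y : Fin d) :
    RS u 2 1 1 x y ≤ RS u 1 2 1 x y + (u 1).length := by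
  have h1 : ∀ z : Fin d, gg u 2 1 1 z ≤ gg u 1 2 1 z + (if z ∈ (nm (u 1)).toFinset then 1 else 0) := by
    intro z
    unfold gg
    simp only [List.mem_toFinset]
    split_ifs <;> omega
  have h2 : RS u 2 1 1 x y ≤ ∑ z ∈ (Finset.univ.erase x).erase y,
      (gg u 1 2 1 z + (if z ∈ (nm (u 1)).toFinset then 1 else 0)) :=
    Finset.sum_le_sum fun z _ => h1 z
  rw [Finset.sum_add_distrib] at h2
  have h3 : ∑ z ∈ (Finset.univ.erase x).erase y, (if z ∈ (nm (u 1)).toFinset then 1 else 0) ≤
      (u 1).length := by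
    calc ∑ z ∈ (Finset.univ.erase x).erase y, (if z ∈ (nm (u 1)).toFinset then 1 else 0)
        ≤ ∑ z : Fin d, (if z ∈ (nm (u 1)).toFinset then 1 else 0) :=
          Finset.sum_le_sum_of_subset (Finset.subset_univ _)
      _ = (nm (u 1)).toFinset.card := by
        rw [Finset.sum_ite_mem, Finset.univ_inter, Finset.sum_const, smul_eq_mul, mul_one]
      _ ≤ (nm (u 1)).length := List.toFinset_card_le _
      _ = (u 1).length := nm_length _
  unfold RS at h2 ⊢
  omega

theorem pot_W (u : Fin 4 → List (Pt d)) (A B C : List (Pt d)) {x y : Fin d} (hxy : x ≠ y)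
    (hA : ∀ z ∈ nm A, z = x ∨ z = y) (hB : ∀ z ∈ nm B, z = x ∨ z = y)
    (hC : ∀ z ∈ nm C, z = x ∨ z = y) :
    pot (W u A B C) = (nm (W u A B C)).idxOf x + (nm (W u A B C)).idxOf y +
      RS u A.length B.length C.length x y := by
  unfold pot RS
  rw [← Finset.add_sum_erase Finset.univ _ (Finset.mem_univ x),
    ← Finset.add_sum_erase (Finset.univ.erase x) _ (Finset.mem_erase.2 ⟨hxy.symm, Finset.mem_univ y⟩),
    add_assoc]
  congr 2
  apply Finset.sum_congr rfl
  intro z hz
  rw [Finset.mem_erase, Finset.mem_erase] at hz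
  apply idx_W
  · intro h; rcases hA z h with h | h <;> simp [h] at hz
  · intro h; rcases hB z h with h | h <;> simp [h] at hz
  · intro h; rcases hC z h with h | h <;> simp [h] at hz

theorem idx_left (u : Fin 4 → List (Pt d)) {x : Fin d} (hx : ∀ i, x ∉ nm (u i))
    (A B C : List (Pt d)) :
    (nm (W u A B C)).idxOf x = (u 0).length + (if x ∈ nm A then (nm A).idxOf x
      else A.length + ((u 1).length + (if x ∈ nm B then (nm B).idxOf x
      else B.length + ((u 2).length + (if x ∈ nm C then (nm C).idxOf x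
      else C.length + (nm (u 3)).idxOf x))))) := by
  have h0 := hx 0
  have h1 := hx 1
  have h2 := hx 2
  unfold W
  simp only [nm_append, List.append_assoc]
  rw [idx_append, if_neg h0, nm_length, idx_append, idx_append, if_neg h1, nm_length, nm_length,
    idx_append, idx_append, if_neg h2, nm_length, nm_length, idx_append, nm_length]

section Pots

variable (u : Fin 4 → List (Pt d)) {x y : Fin d} (hxy : x ≠ y)
  (hx : ∀ i, x ∉ nm (u i)) (hy : ∀ i, y ∉ nm (u i))
include hxy hx hy

theorem pot0 (e1 e2 e3 e4 : Bool) : pot (W u [(x, e1)] [(x, e2), (y, e3)] [(y, e4)]) =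
    2 * (u 0).length + (u 1).length + 2 + RS u 1 2 1 x y := by
  rw [pot_W u _ _ _ hxy (by simp [nm]) (by simp [nm]) (by simp [nm]), idx_left u hx, idx_left u hy]
  simp [nm_cons, nm_nil, List.idxOf_cons, hxy, hxy.symm]
  omega

theorem pot1 (e1 e2 e3 e4 : Bool) : pot (W u [(x, e1)] [(y, e2), (x, e3)] [(y, e4)]) =
    2 * (u 0).length + (u 1).length + 1 + RS u 1 2 1 x y := by
  rw [pot_W u _ _ _ hxy (by simp [nm]) (by simp [nm]) (by simp [nm]), idx_left u hx, idx_left u hy]
  simp [nm_cons, nm_nil, List.idxOf_cons, hxy, hxy.symm]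
  omega

theorem pot1' (e1 e2 e3 e4 : Bool) : pot (W u [(y, e1)] [(x, e2), (y, e3)] [(x, e4)]) =
    2 * (u 0).length + (u 1).length + 1 + RS u 1 2 1 x y := by
  rw [pot_W u _ _ _ hxy (by simp [nm]) (by simp [nm]) (by simp [nm]), idx_left u hx, idx_left u hy]
  simp [nm_cons, nm_nil, List.idxOf_cons, hxy, hxy.symm]
  omega

theorem pot2 {p q r s : Pt d} (h : (p.1 = x ∧ q.1 = y) ∨ (p.1 = y ∧ q.1 = x))
    (hr : r.1 = x ∨ r.1 = y) (hs : s.1 = x ∨ s.1 = y) : pot (W u [p, q] [r] [s]) =
    2 * (u 0).length + 1 + RS u 2 1 1 x y := by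
  rw [pot_W u _ _ _ hxy (by simp [nm]; tauto) (by simp [nm]; tauto) (by simp [nm]; tauto),
    idx_left u hx, idx_left u hy]
  rcases h with ⟨h1, h2⟩ | ⟨h1, h2⟩
  · simp [nm_cons, nm_nil, List.idxOf_cons, h1, h2, hxy, hxy.symm]
    omega
  · simp [nm_cons, nm_nil, List.idxOf_cons, h1, h2, hxy, hxy.symm]
    omega

theorem pot3 {p q r s : Pt d} (h : (p.1 = x ∧ q.1 = y) ∨ (p.1 = y ∧ q.1 = x))
    (hr : r.1 = x ∨ r.1 = y) (hs : s.1 = x ∨ s.1 = y) : pot (W u [p] [q] [r, s]) =
    2 * (u 0).length + (u 1).length + 1 + RS u 1 1 2 x y := by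
  rw [pot_W u _ _ _ hxy (by simp [nm]; tauto) (by simp [nm]; tauto) (by simp [nm]; tauto),
    idx_left u hx, idx_left u hy]
  rcases h with ⟨h1, h2⟩ | ⟨h1, h2⟩
  · simp [nm_cons, nm_nil, List.idxOf_cons, h1, h2, hxy, hxy.symm]
    omega
  · simp [nm_cons, nm_nil, List.idxOf_cons, h1, h2, hxy, hxy.symm]
    omega

end Pots

/-- The span of the relations and of the words with all left endpoints first. -/
noncomputable def VV (d : ℕ) : Submodule ℚ (Dg d →₀ ℚ) := relI d ⊔
    Submodule.span ℚ (Set.range fun p : (Fin d → Bool) × Equiv.Perm (Fin d) => el (lr p.1 p.2))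

theorem sixT_mem (u : Fin 4 → List (Pt d)) (τ : Equiv.Perm (Fin 3)) (x y : Fin d) :
    sixT u τ x y ∈ VV d :=
  Submodule.mem_sup_left (Submodule.subset_span (Or.inr ⟨u, τ, x, y, rfl⟩))

theorem pr_eq (u : Fin 4 → List (Pt d)) (τ : Equiv.Perm (Fin 3)) (x y : Fin d)
    (i j k l : Fin 3) : pr u τ x y i j k l = W u (ep x i j (τ 0) ++ ep y k l (τ 0))
      (ep x i j (τ 1) ++ ep y k l (τ 1)) (ep x i j (τ 2) ++ ep y k l (τ 2)) := rfl

section Six

variable {M : Type*} [AddCommGroup M] [Module ℚ M] (V : Submodule ℚ M) {a b c e f g : M}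

theorem six_a (h : a - b + (c - e) + (f - g) ∈ V) (hb : b ∈ V) (hc : c ∈ V) (he : e ∈ V)
    (hf : f ∈ V) (hg : g ∈ V) : a ∈ V := by
  have : a = (a - b + (c - e) + (f - g)) + b - (c - e) - (f - g) := by abel
  rw [this]
  exact V.sub_mem (V.sub_mem (V.add_mem h hb) (V.sub_mem hc he)) (V.sub_mem hf hg)

theorem six_c (h : a - b + (c - e) + (f - g) ∈ V) (ha : a ∈ V) (hb : b ∈ V) (he : e ∈ V)
    (hf : f ∈ V) (hg : g ∈ V) : c ∈ V := by
  have : c = (a - b + (c - e) + (f - g)) - (a - b) + e - (f - g) := by abel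
  rw [this]
  exact V.sub_mem (V.add_mem (V.sub_mem h (V.sub_mem ha hb)) he) (V.sub_mem hf hg)

theorem six_e (h : a - b + (c - e) + (f - g) ∈ V) (ha : a ∈ V) (hb : b ∈ V) (hc : c ∈ V)
    (hf : f ∈ V) (hg : g ∈ V) : e ∈ V := by
  have : e = (a - b) + c + (f - g) - (a - b + (c - e) + (f - g)) := by abel
  rw [this]
  exact V.sub_mem (V.add_mem (V.add_mem (V.sub_mem ha hb) hc) (V.sub_mem hf hg)) h

theorem six_f (h : a - b + (c - e) + (f - g) ∈ V) (ha : a ∈ V) (hb : b ∈ V) (hc : c ∈ V)
    (he : e ∈ V) (hg : g ∈ V) : f ∈ V := by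
  have : f = (a - b + (c - e) + (f - g)) - (a - b) - (c - e) + g := by abel
  rw [this]
  exact V.add_mem (V.sub_mem (V.sub_mem h (V.sub_mem ha hb)) (V.sub_mem hc he)) hg

end Six

/-- One straightening step. -/
theorem step (u : Fin 4 → List (Pt d)) {x y : Fin d} (hxy : x ≠ y)
    (hx : ∀ i, x ∉ nm (u i)) (hy : ∀ i, y ∉ nm (u i)) (e f : Bool)
    (IH : ∀ w' : List (Pt d), pot w' < pot (W u [(x, e)] [(x, !e), (y, f)] [(y, !f)]) →
      el w' ∈ VV d) :
    el (W u [(x, e)] [(x, !e), (y, f)] [(y, !f)]) ∈ VV d := by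
  have h0 := pot0 u hxy hx hy e (!e) f (!f)
  have hR1 := RS_le u x y
  have hR2 := RS_le' u x y
  have k1 : ∀ e1 e2 e3 e4 : Bool, el (W u [(x, e1)] [(y, e2), (x, e3)] [(y, e4)]) ∈ VV d := by
    intro e1 e2 e3 e4
    apply IH; rw [h0, pot1 u hxy hx hy]; omega
  have k1' : ∀ e1 e2 e3 e4 : Bool, el (W u [(y, e1)] [(x, e2), (y, e3)] [(x, e4)]) ∈ VV d := by
    intro e1 e2 e3 e4
    apply IH; rw [h0, pot1' u hxy hx hy]; omega
  have k2 : ∀ {p q r s : Pt d}, ((p.1 = x ∧ q.1 = y) ∨ (p.1 = y ∧ q.1 = x)) →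
      (r.1 = x ∨ r.1 = y) → (s.1 = x ∨ s.1 = y) → el (W u [p, q] [r] [s]) ∈ VV d := by
    intro p q r s h hr hs
    apply IH; rw [h0, pot2 u hxy hx hy h hr hs]; omega
  have k3 : ∀ {p q r s : Pt d}, ((p.1 = x ∧ q.1 = y) ∨ (p.1 = y ∧ q.1 = x)) →
      (r.1 = x ∨ r.1 = y) → (s.1 = x ∨ s.1 = y) → el (W u [p] [q] [r, s]) ∈ VV d := by
    intro p q r s h hr hs
    apply IH; rw [h0, pot3 u hxy hx hy h hr hs]; omega
  have a0 : (Equiv.swap (0 : Fin 3) 2) 0 = 2 := by decide
  have a1 : (Equiv.swap (0 : Fin 3) 2) 1 = 1 := by decide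
  have a2 : (Equiv.swap (0 : Fin 3) 2) 2 = 0 := by decide
  have b0 : (Equiv.swap (1 : Fin 3) 2) 0 = 0 := by decide
  have b1 : (Equiv.swap (1 : Fin 3) 2) 1 = 2 := by decide
  have b2 : (Equiv.swap (1 : Fin 3) 2) 2 = 1 := by decide
  have c0 : (Equiv.swap (0 : Fin 3) 1) 0 = 1 := by decide
  have c1 : (Equiv.swap (0 : Fin 3) 1) 1 = 0 := by decide
  have c2 : (Equiv.swap (0 : Fin 3) 1) 2 = 2 := by decide
  have d0 : (1 : Equiv.Perm (Fin 3)) 0 = 0 := rfl
  have d1 : (1 : Equiv.Perm (Fin 3)) 1 = 1 := rfl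
  have d2 : (1 : Equiv.Perm (Fin 3)) 2 = 2 := rfl
  cases e <;> cases f
  · -- both arrows backward
    have h := sixT_mem u (Equiv.swap 0 2) x y
    unfold sixT at h
    simp only [pr_eq, a0, a1, a2] at h
    simp [ep] at h
    exact six_e _ h (k3 (by simp) (by simp) (by simp)) (k3 (by simp) (by simp) (by simp))
      (k1' _ _ _ _) (k2 (by simp) (by simp) (by simp)) (k2 (by simp) (by simp) (by simp))
  · have h := sixT_mem u (Equiv.swap 0 1) x y
    unfold sixT at h
    simp only [pr_eq, c0, c1, c2] at h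
    simp [ep] at h
    exact six_a _ h (k1' _ _ _ _) (k2 (by simp) (by simp) (by simp))
      (k2 (by simp) (by simp) (by simp)) (k3 (by simp) (by simp) (by simp))
      (k3 (by simp) (by simp) (by simp))
  · have h := sixT_mem u (Equiv.swap 1 2) x y
    unfold sixT at h
    simp only [pr_eq, b0, b1, b2] at h
    simp [ep] at h
    exact six_f _ h (k2 (by simp) (by simp) (by simp)) (k2 (by simp) (by simp) (by simp))
      (k3 (by simp) (by simp) (by simp)) (k3 (by simp) (by simp) (by simp)) (k1' _ _ _ _)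
  · have h := sixT_mem u 1 x y
    unfold sixT at h
    simp only [pr_eq, d0, d1, d2] at h
    simp [ep] at h
    exact six_c _ h (k2 (by simp) (by simp) (by simp)) (k2 (by simp) (by simp) (by simp))
      (k1' _ _ _ _) (k3 (by simp) (by simp) (by simp)) (k3 (by simp) (by simp) (by simp))

/-- A prefix without repeated names followed by a repetition. -/
theorem prefix_nodup (w : List (Pt d)) : ∃ a b, w = a ++ b ∧ (nm a).Nodup ∧
    (b = [] ∨ ∃ r b', b = r :: b' ∧ r.1 ∈ nm a) := by
  induction w using List.reverseRecOn with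
  | nil => exact ⟨[], [], by simp, by simp [nm], Or.inl rfl⟩
  | append_singleton w p ih =>
    obtain ⟨a, b, hw, ha, hb⟩ := ih
    rcases hb with rfl | ⟨r, b', rfl, hr⟩
    · by_cases hp : p.1 ∈ nm a
      · exact ⟨a, [p], by simp [hw], ha, Or.inr ⟨p, [], rfl, hp⟩⟩
      · refine ⟨a ++ [p], [], by simp [hw], ?_, Or.inl rfl⟩
        rw [nm_append, List.nodup_append]
        refine ⟨ha, by simp [nm], ?_⟩
        intro z hz z' hz' h
        simp [nm_cons, nm_nil] at hz'
        subst hz'; subst h; exact hp hz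
    · exact ⟨a, r :: b' ++ [p], by simp [hw], ha, Or.inr ⟨r, b' ++ [p], rfl, hr⟩⟩

theorem mem_nm {w : List (Pt d)} {z : Fin d} : z ∈ nm w ↔ ∃ b, (z, b) ∈ w := by
  unfold nm
  rw [List.mem_map]
  constructor
  · rintro ⟨⟨a, b⟩, h, rfl⟩; exact ⟨b, h⟩
  · rintro ⟨b, h⟩; exact ⟨_, h, rfl⟩

/-- The first letter with a name outside a given set. -/
theorem first_new (S : List (Fin d)) (b : List (Pt d)) (z : Fin d) (hz : z ∈ nm b) (hS : z ∉ S) :
    ∃ c q b'', b = c ++ q :: b'' ∧ (∀ t ∈ nm c, t ∈ S) ∧ q.1 ∉ S := by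
  induction b with
  | nil => simp [nm] at hz
  | cons p b ih =>
    by_cases hp : p.1 ∈ S
    · have hz' : z ∈ nm b := by
        rw [nm_cons, List.mem_cons] at hz
        rcases hz with h | h
        · rw [h] at hS; exact absurd hp hS
        · exact h
      obtain ⟨c, q, b'', h1, h2, h3⟩ := ih hz'
      refine ⟨p :: c, q, b'', by rw [h1]; rfl, ?_, h3⟩
      intro t ht
      rw [nm_cons, List.mem_cons] at ht
      rcases ht with rfl | ht
      · exact hp
      · exact h2 t ht
    · exact ⟨[], p, b, rfl, by simp [nm], hp⟩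

theorem not_mem_of {u : Fin 4 → List (Pt d)} {x y : Fin d} {e f : Bool} (hxy : x ≠ y)
    (h : IsD (W u [(x, e)] [(x, !e), (y, f)] [(y, !f)])) :
    (∀ i, x ∉ nm (u i)) ∧ (∀ i, y ∉ nm (u i)) := by
  have key : ∀ t : Bool, (∀ i, List.count (x, t) (u i) = 0) ∧
      (∀ i, List.count (y, t) (u i) = 0) := by
    intro t
    have h1 := h (x, t)
    have h2 := h (y, t)
    unfold W at h1 h2
    simp only [List.count_append, List.count_cons, List.count_nil] at h1 h2
    have hyx : y ≠ x := hxy.symm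
    have c1 : List.count (x, t) (u 0) + List.count (x, t) (u 1) + List.count (x, t) (u 2) +
        List.count (x, t) (u 3) = 0 := by
      cases e <;> cases f <;> cases t <;> simp [hxy, hyx] at h1 <;> omega
    have c2 : List.count (y, t) (u 0) + List.count (y, t) (u 1) + List.count (y, t) (u 2) +
        List.count (y, t) (u 3) = 0 := by
      cases e <;> cases f <;> cases t <;> simp [hxy, hyx] at h2 <;> omega
    constructor
    · intro i
      fin_cases i <;> simp only [Fin.zero_eta, Fin.mk_one, Fin.reduceFinMk] <;> omega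
    · intro i
      fin_cases i <;> simp only [Fin.zero_eta, Fin.mk_one, Fin.reduceFinMk] <;> omega
  constructor
  · intro i hi
    obtain ⟨t, ht⟩ := mem_nm.1 hi
    exact absurd (List.count_pos_iff.2 ht) (by rw [(key t).1 i]; simp)
  · intro i hi
    obtain ⟨t, ht⟩ := mem_nm.1 hi
    exact absurd (List.count_pos_iff.2 ht) (by rw [(key t).2 i]; simp)

theorem dichotomy {w : List (Pt d)} (hw : IsD w) :
    (∃ a b, w = a ++ b ∧ (nm a).Nodup ∧ ∀ z, z ∈ nm a) ∨
    ∃ (u : Fin 4 → List (Pt d)) (x y : Fin d) (e f : Bool), x ≠ y ∧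
      (∀ i, x ∉ nm (u i)) ∧ (∀ i, y ∉ nm (u i)) ∧
      w = W u [(x, e)] [(x, !e), (y, f)] [(y, !f)] := by
  obtain ⟨a, b, hab, ha, hb⟩ := prefix_nodup w
  by_cases hall : ∀ z, z ∈ nm a
  · exact Or.inl ⟨a, b, hab, ha, hall⟩
  right
  push_neg at hall
  obtain ⟨z, hz⟩ := hall
  have hw' := (isD_iff w).1 hw
  have hzb : z ∈ nm b := by
    have := hw'.2 (z, true)
    rw [hab, List.mem_append] at this
    rcases this with h | h
    · exact absurd (mem_nm.2 ⟨_, h⟩) hz
    · exact mem_nm.2 ⟨_, h⟩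
  obtain ⟨c, q, b'', hc1, hc2, hc3⟩ := first_new (nm a) b z hzb hz
  have hc : c ≠ [] := by
    rintro rfl
    rcases hb with hb | ⟨r, b', hb, hr⟩
    · rw [hb] at hc1; simp at hc1
    · rw [hb] at hc1
      simp only [List.nil_append, List.cons.injEq] at hc1
      rw [hc1.1] at hr; exact hc3 hr
  obtain ⟨c', r, rfl⟩ : ∃ c' r, c = c' ++ [r] := ⟨c.dropLast, c.getLast hc, (List.dropLast_append_getLast hc).symm⟩
  have hra : r.1 ∈ nm a := hc2 r.1 (by rw [nm_append]; simp [nm])
  have hwr : w = a ++ (c' ++ [r] ++ q :: b'') := by rw [hab, hc1]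
  have hnd := hw'.1
  -- the other endpoint of r lies in a
  have hor : oth r ∈ a := by
    obtain ⟨t, ht⟩ := mem_nm.1 hra
    rcases eq_or_oth (p := (r.1, t)) (q := r) rfl with h | h
    · exfalso
      rw [h] at ht
      rw [hwr, List.nodup_append] at hnd
      exact hnd.2.2 r ht r (by simp) rfl
    · rwa [h] at ht
  obtain ⟨a1, a2, ha12⟩ := List.mem_iff_append.1 hor
  have hxy : r.1 ≠ q.1 := fun h => hc3 (h ▸ hra)
  have hoq : oth q ∈ b'' := by
    have h := hw'.2 (oth q)
    rw [hwr] at h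
    simp only [List.mem_append, List.mem_cons, List.not_mem_nil, or_false] at h
    rcases h with h | ⟨h | h⟩ | h | h
    · exact absurd (mem_nm.2 ⟨_, h⟩) hc3
    · exact absurd (hc2 q.1 (by rw [nm_append, List.mem_append]; left; exact mem_nm.2 ⟨_, h⟩)) hc3
    · exact absurd (congrArg Prod.fst h).symm hxy
    · exact absurd h (oth_ne q)
    · exact h
  obtain ⟨b1, b2, hb12⟩ := List.mem_iff_append.1 hoq
  have hform : w = W ![a1, a2 ++ c', b1, b2] [(r.1, !r.2)] [(r.1, !(!r.2)), (q.1, q.2)]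
      [(q.1, !q.2)] := by
    rw [hwr, ha12, hb12]
    simp [W, oth]
  have hD := not_mem_of hxy (hform ▸ hw)
  exact ⟨![a1, a2 ++ c', b1, b2], r.1, q.1, !r.2, q.2, hxy, hD.1, hD.2, hform⟩

theorem ren_mem (w : List (Pt d)) (σ : Equiv.Perm (Fin d)) (h : el (ren σ w) ∈ VV d) :
    el w ∈ VV d := by
  have h1 : el w - el (ren σ w) ∈ VV d :=
    Submodule.mem_sup_left (Submodule.subset_span (Or.inl ⟨w, σ, rfl⟩))
  have : el w = (el w - el (ren σ w)) + el (ren σ w) := by abel
  rw [this]
  exact Submodule.add_mem _ h1 h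

/-- The sorted words. -/
theorem sorted_mem {w : List (Pt d)} (hw : IsD w) {a b : List (Pt d)} (hab : w = a ++ b)
    (ha : (nm a).Nodup) (hall : ∀ z, z ∈ nm a) : el w ∈ VV d := by
  have hla : a.length = d := by
    have h1 : (nm a).toFinset = Finset.univ := by ext z; simp [hall z]
    have h2 := List.toFinset_card_of_nodup ha
    rw [h1, Finset.card_univ, Fintype.card_fin, nm_length] at h2
    exact h2.symm
  have hlb : b.length = d := by
    have := isD_length hw
    rw [hab, List.length_append] at this; omega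
  have hw' := (isD_iff w).1 hw
  have hnd := hw'.1
  rw [hab, List.nodup_append] at hnd
  -- names along b
  have hb : (nm b).Nodup := by
    unfold nm
    rw [List.nodup_map_iff_inj_on hnd.2.1]
    intro p hp q hq hpq
    rcases eq_or_oth hpq with h | h
    · exact h
    · exfalso
      obtain ⟨t, ht⟩ := mem_nm.1 (hall p.1)
      rcases eq_or_oth (p := (p.1, t)) (q := p) rfl with h' | h'
      · rw [h'] at ht; exact hnd.2.2 p ht p hp rfl
      · rw [h', h, oth_oth] at ht; exact hnd.2.2 q ht q hq rfl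
  have hballs : ∀ z, z ∈ nm b := by
    have h1 : (nm b).toFinset = Finset.univ := by
      apply Finset.eq_univ_of_card
      rw [List.toFinset_card_of_nodup hb, nm_length, hlb, Fintype.card_fin]
    intro z
    rw [← List.mem_toFinset, h1]; exact Finset.mem_univ z
  have la : (nm a).length = d := by rw [nm_length, hla]
  have lb : (nm b).length = d := by rw [nm_length, hlb]
  let ρ : Equiv.Perm (Fin d) := (finCongr la.symm).trans (ha.getEquivOfForallMemList _ hall)
  let β : Equiv.Perm (Fin d) := (finCongr lb.symm).trans (hb.getEquivOfForallMemList _ hballs)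
  have hρ : ∀ i : Fin d, ρ i = (a[(i : ℕ)]'(by rw [hla]; exact i.2)).1 := by
    intro i
    simp [ρ, nm]
  have hβ : ∀ i : Fin d, β i = (b[(i : ℕ)]'(by rw [hlb]; exact i.2)).1 := by
    intro i
    simp [β, nm]
  let ε : Fin d → Bool := fun i => (a[(i : ℕ)]'(by rw [hla]; exact i.2)).2
  have hwform : w = ren ρ (lr ε (β.trans ρ.symm)) := by
    unfold ren lr
    rw [hab, List.map_append, List.map_ofFn, List.map_ofFn]
    congr 1
    · apply List.ext_getElem
      · simp [hla]
      · intro n h1 h2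
        rw [List.getElem_ofFn]
        simp only [Function.comp]
        rw [hρ]
    · apply List.ext_getElem
      · simp [hlb]
      · intro n h1 h2
        rw [List.getElem_ofFn]
        simp only [Function.comp, Equiv.trans_apply, Equiv.apply_symm_apply]
        have hn : n < d := by rw [← hlb]; exact h1
        have hk := hβ ⟨n, hn⟩
        have hk' : (β ⟨n, _⟩ : Fin d) = (b[n]'h1).1 := hk
        rw [hk']
        set j := ρ.symm (b[n]'h1).1 with hj
        have hja := hρ j
        have hρj : ρ j = (b[n]'h1).1 := by rw [hj, Equiv.apply_symm_apply]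
        rw [hρj] at hja
        have hmem : a[(j : ℕ)]'(by rw [hla]; exact j.2) ∈ a := List.getElem_mem _
        have hmemb : b[n]'h1 ∈ b := List.getElem_mem _
        rcases eq_or_oth hja with h | h
        · exfalso
          rw [h] at hmemb
          exact hnd.2.2 _ hmem _ hmemb rfl
        · rw [h]
          rfl
  rw [hwform]
  have h1 : el (lr ε (β.trans ρ.symm)) ∈ VV d :=
    Submodule.mem_sup_right (Submodule.subset_span ⟨(ε, β.trans ρ.symm), rfl⟩)
  have h2 : el (lr ε (β.trans ρ.symm)) - el (ren ρ (lr ε (β.trans ρ.symm))) ∈ VV d :=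
    Submodule.mem_sup_left (Submodule.subset_span (Or.inl ⟨_, ρ, rfl⟩))
  have : el (ren ρ (lr ε (β.trans ρ.symm))) = el (lr ε (β.trans ρ.symm)) -
      (el (lr ε (β.trans ρ.symm)) - el (ren ρ (lr ε (β.trans ρ.symm)))) := by abel
  rw [this]
  exact Submodule.sub_mem _ h1 h2

theorem span_all (w : List (Pt d)) : el w ∈ VV d := by
  induction hn : pot w using Nat.strong_induction_on generalizing w with
  | _ n IH =>
    by_cases hw : IsD w
    · rcases dichotomy hw with ⟨a, b, hab, ha, hall⟩ | ⟨u, x, y, e, f, hxy, hx, hy, hW⟩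
      · exact sorted_mem hw hab ha hall
      · rw [hW]
        apply step u hxy hx hy e f
        intro w' hw'
        rw [← hW, hn] at hw'
        exact IH _ hw' w' rfl
    · rw [el_of_not hw]; exact Submodule.zero_mem _

theorem stmtSpan : StmtSpan := fun _ w => span_all w

end Pool.Agent.Helper88.AD
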