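import Pool.Agent.Helper88.AD.Defs

/-! Statements of the work packets (see the handoff table). -/

namespace Pool.Agent.Helper88.AD

/-- All left endpoints, in the order of the names, then all right endpoints, in the order `σ`;
`ε i` tells whether the left endpoint of the arrow `i` is its tail. -/
def lr {d : ℕ} (ε : Fin d → Bool) (σ : Equiv.Perm (Fin d)) : List (Pt d) :=
  (List.ofFn fun i => (i, ε i)) ++ List.ofFn fun k => (σ k, !(ε (σ k)))

/-- Packet SPAN. -/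
def StmtSpan : Prop :=
  ∀ (d : ℕ) (w : List (Pt d)), el w ∈ relI d ⊔
    Submodule.span ℚ (Set.range fun p : (Fin d → Bool) × Equiv.Perm (Fin d) => el (lr p.1 p.2))

/-! ### Trace weight systems on the circle -/

/-- The classical Yang-Baxter equation for `∑ k, A k ⊗ B k`, written entry by entry. -/
def CYBE {K ι R : Type} [Fintype K] [Fintype ι] [DecidableEq ι] [CommRing R]
    (A B : K → Matrix ι ι R) : Prop :=
  ∀ i₁ j₁ i₂ j₂ i₃ j₃ : ι, ∑ k, ∑ l,
    ((A k * A l - A l * A k) i₁ j₁ * B k i₂ j₂ * B l i₃ j₃ +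
      A k i₁ j₁ * (B k * A l - A l * B k) i₂ j₂ * B l i₃ j₃ +
      A k i₁ j₁ * A l i₂ j₂ * (B k * B l - B l * B k) i₃ j₃) = 0

/-- The trace weight of a word. -/
def trw {d : ℕ} {K ι R : Type} [Fintype K] [Fintype ι] [DecidableEq ι] [CommRing R]
    (A B : K → Matrix ι ι R) (w : List (Pt d)) : R :=
  ∑ κ : Fin d → K, ((w.map fun p : Pt d => if p.2 then A (κ p.1) else B (κ p.1)).prod).trace

/-- Packet TRACE. -/
def StmtTrace : Prop :=
  ∀ (K ι R : Type) [Fintype K] [Fintype ι] [DecidableEq ι] [CommRing R] [Algebra ℚ R]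
    (A B : K → Matrix ι ι R), CYBE A B → ∀ d : ℕ,
    ∃ f : (Dg d →₀ ℚ) →ₗ[ℚ] R, (∀ x ∈ relS d, f x = 0) ∧
      ∀ w : List (Pt d), IsD w → f (el w) = trw A B w

/-- The variables are the `x_ij`, `i < j`. -/
abbrev RR : Type := MvPolynomial (ℕ × ℕ) ℚ

/-- `m_ii = 1/2`, `m_ij = x_ij` for `i < j`, `m_ij = - x_ji` for `j < i`. -/
noncomputable def mm (i j : ℕ) : RR :=
  if i = j then MvPolynomial.C (1 / 2) else if i < j then MvPolynomial.X (i, j)
  else - MvPolynomial.X (j, i)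

/-- The states: `(true, i, j)` is the off-diagonal term `E_ij ⊗ E_ji` (`i < j`), `(false, i, j)`
is the diagonal term `m_ij E_ii ⊗ E_jj`. -/
abbrev KK (s : ℕ) : Type := Bool × Fin (s + 1) × Fin (s + 1)

/-- First tensor factors (tails). -/
noncomputable def AA (s : ℕ) (κ : KK s) : Matrix (Fin (s + 1)) (Fin (s + 1)) RR :=
  if κ.1 then (if κ.2.1 < κ.2.2 then Matrix.single κ.2.1 κ.2.2 1 else 0)
  else Matrix.single κ.2.1 κ.2.1 (mm κ.2.1 κ.2.2)

/-- Second tensor factors (heads). -/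
noncomputable def BB (s : ℕ) (κ : KK s) : Matrix (Fin (s + 1)) (Fin (s + 1)) RR :=
  if κ.1 then Matrix.single κ.2.2 κ.2.1 1 else Matrix.single κ.2.2 κ.2.2 1

/-- Packet CYBE. -/
def StmtCYBE : Prop := ∀ s : ℕ, CYBE (AA s) (BB s)

/-- Admissible enumeration: `z` lists pairs `a < b ≤ s` with all `(a, a+1)`, sorted with `a`
increasing and, for equal `a`, `b` decreasing; `z ∘ σ` is sorted with `b` decreasing and, for
equal `b`, `a` increasing. -/
structure Adm (s : ℕ) {d : ℕ} (z : Fin d → ℕ × ℕ) (σ : Equiv.Perm (Fin d)) : Prop where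
  lt : ∀ x, (z x).1 < (z x).2
  le : ∀ x, (z x).2 ≤ s
  bone : ∀ a < s, ∃ x, z x = (a, a + 1)
  tail : ∀ x y, x < y → (z x).1 < (z y).1 ∨ ((z x).1 = (z y).1 ∧ (z y).2 < (z x).2)
  head : ∀ k l, k < l → (z (σ l)).2 < (z (σ k)).2 ∨
    ((z (σ k)).2 = (z (σ l)).2 ∧ (z (σ k)).1 < (z (σ l)).1)

/-- Packet COEF. -/
def StmtCoef : Prop :=
  ∀ (s d : ℕ) (z : Fin d → ℕ × ℕ) (σ : Equiv.Perm (Fin d)), Adm s z σ →
    ∀ G : Finset (ℕ × ℕ), (∀ q ∈ G, q.1 + 2 ≤ q.2 ∧ q.2 ≤ s) →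
      (∀ v ≤ s, ∃ q ∈ G, q.1 = v ∨ q.2 = v) →
      MvPolynomial.coeff (∑ q ∈ G, Finsupp.single q 1)
        (trw (AA s) (BB s) (lr (fun _ => true) σ)) =
      if G = (Finset.univ.image z).filter (fun q => q.1 + 2 ≤ q.2) then 1 else 0

/-- Packet ENUM. -/
def StmtEnum : Prop :=
  ∀ (s d : ℕ) (F : Finset (ℕ × ℕ)), F.card = d → (∀ q ∈ F, q.1 < q.2 ∧ q.2 ≤ s) →
    (∀ a < s, (a, a + 1) ∈ F) →
    ∃ (z : Fin d → ℕ × ℕ) (σ : Equiv.Perm (Fin d)), Adm s z σ ∧ Finset.univ.image z = F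

/-- Packet BINOM (from TRACE, CYBE, COEF, ENUM). -/
def StmtBinom : Prop :=
  ∀ s d : ℕ, 3 ≤ s → 2 * s ≤ d + 1 →
    ((s - 1) * (s - 2) / 2).choose (d + 1 - 2 * s) ≤ Module.finrank ℚ (AS d)

/-- Packet ASYM. -/
def StmtAsym : Prop :=
  ∀ D : ℕ → ℕ, (∀ s d : ℕ, 3 ≤ s → 2 * s ≤ d + 1 →
      ((s - 1) * (s - 2) / 2).choose (d + 1 - 2 * s) ≤ D d) →
    ∀ᶠ d : ℕ in Filter.atTop, ((d : ℝ) / (20 * Real.log d ^ 2)) ^ d ≤ (D d : ℝ)

/-- Packet LOG. -/
def StmtLog : Prop :=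
  ∀ D : ℕ → ℕ, (∀ᶠ d : ℕ in Filter.atTop, ((d : ℝ) / (20 * Real.log d ^ 2)) ^ d ≤ (D d : ℝ)) →
    (∀ d, D d ≤ 2 ^ d * d.factorial) →
    Filter.Tendsto (fun d : ℕ => Real.log (D d) / (d * Real.log d)) Filter.atTop (nhds 1)

/-! ### The algebraic model for the triangular quotient -/

section Model

variable {K E : Type} [AddCommGroup E] [Module ℚ E]

/-- `h_p h_q v - h_q h_p v = δ_pq (h v)`. -/
def R1 (h : E →ₗ[ℚ] (K →₀ E)) (dl : K → (K × K →₀ ℚ)) : Prop :=
  ∀ v : E,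
    ((h v).sum fun q v' => (h v').mapDomain fun p => (p, q)) -
      ((h v).sum fun q v' => (h v').mapDomain fun p => (q, p)) =
    (h v).sum fun l v' => (dl l).sum fun pq c => Finsupp.single pq (c • v')

open TensorProduct in
/-- `h (act z v) = act z (h v) + [act z, leg] (h v) - δ(z) v`, the legs being evaluated
as operators. -/
def R2 (act : K → Module.End ℚ E) (h : E →ₗ[ℚ] (K →₀ E)) (dl : K → (K × K →₀ ℚ)) : Prop :=
  ∀ (z : K) (v : E),
    ((h (act z v)).sum fun l v' => act l ⊗ₜ[ℚ] v') =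
      ((h v).sum fun l v' => act l ⊗ₜ[ℚ] (act z v')) +
        ((h v).sum fun l v' => (act z * act l - act l * act z) ⊗ₜ[ℚ] v') -
        ((dl z).sum fun pq c => c • (act pq.1 ⊗ₜ[ℚ] (act pq.2 v)))

/-- States: a name for each arrow, and a vector. -/
abbrev St (d : ℕ) (K E : Type) [AddCommGroup E] : Type := (Fin d → K) →₀ E

/-- First encounter of an endpoint of the arrow `z`. -/
noncomputable def hd {d : ℕ} (h : E →ₗ[ℚ] (K →₀ E)) (z : Fin d) : Module.End ℚ (St d K E) :=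
  Finsupp.lsum ℚ fun n => (Finsupp.lmapDomain E ℚ fun k => Function.update n z k) ∘ₗ h

/-- Second encounter of an endpoint of the arrow `z`. -/
noncomputable def ac {d : ℕ} (act : K → Module.End ℚ E) (k₀ : K) (z : Fin d) :
    Module.End ℚ (St d K E) :=
  Finsupp.lsum ℚ fun n => Finsupp.lsingle (Function.update n z k₀) ∘ₗ act (n z)

/-- The value of the word `T_0 … T_{d-1} H_{σ 0} … H_{σ (d-1)}`. -/
noncomputable def thval {d : ℕ} (act : K → Module.End ℚ E) (h : E →ₗ[ℚ] (K →₀ E)) (k₀ : K)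
    (σ : Equiv.Perm (Fin d)) (v : E) : E :=
  (((List.ofFn fun i : Fin d => ac act k₀ i).prod * (List.ofFn fun k : Fin d => hd h (σ k)).prod)
    (Finsupp.single (fun _ => k₀) v)) (fun _ => k₀)

end Model

/-- Packet WS: weight system on the triangular quotient. -/
def StmtWS : Prop :=
  ∀ (K E : Type) [AddCommGroup E] [Module ℚ E] (act : K → Module.End ℚ E)
    (h : E →ₗ[ℚ] (K →₀ E)) (dl : K → (K × K →₀ ℚ)) (k₀ : K), R1 h dl → R2 act h dl →
    ∀ d : ℕ, ∃ Φ : (Dg d →₀ ℚ) →ₗ[ℚ] (E →ₗ[ℚ] E), (∀ x ∈ relT d, Φ x = 0) ∧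
      ∀ (σ : Equiv.Perm (Fin d)) (v : E), Φ (el (lr (fun _ => true) σ)) v = thval act h k₀ σ v

/-- Basis of `gl_N` (matrix units) and names of the generators of the free algebra. -/
abbrev Bx (N : ℕ) : Type := Fin N × Fin N

/-- Free algebra on the `w^m`, `m : Bx N`, tensor the vector representation of `gl_N`. -/
abbrev EE (N : ℕ) : Type := (List (Bx N) × Fin N) →₀ ℚ

/-- Names of legs: `([], b)` is `w^b`, and `(m :: l, b)` is the bracket of `w^m` with `(l, b)`. -/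
abbrev Lg (N : ℕ) : Type := List (Bx N) × Bx N

section ModelGl

variable {N : ℕ}

/-- Left multiplication by `w^m`. -/
noncomputable def mu (m : Bx N) : Module.End ℚ (EE N) :=
  Finsupp.lmapDomain ℚ ℚ fun p => (m :: p.1, p.2)

/-- The operator named by a leg. -/
noncomputable def actW : List (Bx N) → Bx N → Module.End ℚ (EE N)
  | [], b => mu b
  | m :: l, b => mu m * actW l b - actW l b * mu m

/-- The operator named by a leg. -/
noncomputable def actM (z : Lg N) : Module.End ℚ (EE N) := actW z.1 z.2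

/-- `h` on the basis. -/
noncomputable def hW : List (Bx N) → Fin N → (Lg N →₀ EE N)
  | [], a => ∑ b, Finsupp.single ([], (b, a)) (Finsupp.single ([], b) 1)
  | m :: w, a => Finsupp.mapRange.linearMap (mu m) (hW w a) +
      Finsupp.lmapDomain (EE N) ℚ (fun z : Lg N => (m :: z.1, z.2)) (hW w a) -
      ∑ c, (Finsupp.single ([], (m.1, c)) (Finsupp.single ((c, m.2) :: w, a) 1) -
        Finsupp.single ([], (c, m.2)) (Finsupp.single ((m.1, c) :: w, a) 1))

/-- `h`. -/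
noncomputable def hM : EE N →ₗ[ℚ] (Lg N →₀ EE N) :=
  Finsupp.linearCombination ℚ fun p : List (Bx N) × Fin N => hW p.1 p.2

/-- The cobracket `δ` of a leg. -/
noncomputable def dW : List (Bx N) → Bx N → (Lg N × Lg N →₀ ℚ)
  | [], m => ∑ c, (Finsupp.single (([], (m.1, c)), ([], (c, m.2))) 1 -
      Finsupp.single (([], (c, m.2)), ([], (m.1, c))) 1)
  | m :: l, b => (dW l b).mapDomain (fun q => ((m :: q.1.1, q.1.2), q.2)) +
      (dW l b).mapDomain (fun q => (q.1, (m :: q.2.1, q.2.2))) +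
      ∑ c, (Finsupp.single (((m.1, c) :: l, b), ([], (c, m.2))) 1 -
        Finsupp.single (((c, m.2) :: l, b), ([], (m.1, c))) 1 +
        Finsupp.single (([], (m.1, c)), ((c, m.2) :: l, b)) 1 -
        Finsupp.single (([], (c, m.2)), ((m.1, c) :: l, b)) 1)

/-- The cobracket `δ` of a leg. -/
noncomputable def dM (z : Lg N) : Lg N × Lg N →₀ ℚ := dW z.1 z.2

end ModelGl

/-- Packet R1. -/
def StmtR1 : Prop := ∀ N : ℕ, R1 (hM (N := N)) dM

/-- Packet R2. -/
def StmtR2 : Prop := ∀ N : ℕ, R2 (actM (N := N)) hM dM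

/-- Packet EVAL. -/
def StmtEval : Prop :=
  ∀ (d : ℕ) (σ τ : Equiv.Perm (Fin d)),
    thval (actM (N := d + 1)) hM ([], (0, 0)) σ (Finsupp.single ([], Fin.last d) 1)
      ((List.ofFn fun i : Fin d => ((τ.symm i).castSucc, (τ.symm i).succ)), 0) =
    if σ = τ then 1 else 0

/-- The lower bound for the triangular quotient (from WS, R1, R2, EVAL). -/
def StmtLow : Prop :=
  ∀ d : ℕ, ∃ Φ : (Dg d →₀ ℚ) →ₗ[ℚ] (Equiv.Perm (Fin d) → ℚ),
    (∀ x ∈ relT d, Φ x = 0) ∧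
      ∀ σ : Equiv.Perm (Fin d), Φ (el (lr (fun _ => true) σ)) = Pi.single σ 1

end Pool.Agent.Helper88.AD
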