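import Pool.Agent.Helper88.AD.Basic
import Pool.Agent.Helper88.AD.Stmts

/-!
# The trace weight vanishes on the relations
-/

namespace Pool.Agent.Helper88.AD

open Finset

noncomputable section

variable {d : ℕ} {K ι R : Type} [Fintype K] [Fintype ι] [DecidableEq ι] [CommRing R]
  (A B : K → Matrix ι ι R)

/-- The matrix of a word. -/
def pw (κ : Fin d → K) (w : List (Pt d)) : Matrix ι ι R :=
  (w.map fun p : Pt d => if p.2 then A (κ p.1) else B (κ p.1)).prod

theorem pw_append (κ : Fin d → K) (v w : List (Pt d)) :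
    pw A B κ (v ++ w) = pw A B κ v * pw A B κ w := by
  unfold pw
  rw [List.map_append, List.prod_append]

theorem trw_eq (w : List (Pt d)) : trw A B w = ∑ κ : Fin d → K, (pw A B κ w).trace := rfl

/-- The matrix of an endpoint. -/
def em (k : K) (i j m : Fin 3) : Matrix ι ι R :=
  if m = i then A k else if m = j then B k else 1

theorem pw_ep (κ : Fin d → K) (x : Fin d) (i j m : Fin 3) :
    pw A B κ (ep x i j m) = em A B (κ x) i j m := by
  unfold pw ep em
  split_ifs <;> simp

theorem pw_congr {κ κ' : Fin d → K} {w : List (Pt d)} (h : ∀ p ∈ w, κ p.1 = κ' p.1) :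
    pw A B κ w = pw A B κ' w := by
  unfold pw
  congr 1
  apply List.map_congr_left
  intro p hp
  rw [h p hp]

/-! ## Trilinear expansion -/

theorem h01 : (0 : Fin 3) ≠ 1 := by decide

theorem h02 : (0 : Fin 3) ≠ 2 := by decide

theorem h12 : (1 : Fin 3) ≠ 2 := by decide

theorem fin3 : ∀ m : Fin 3, m = 0 ∨ m = 1 ∨ m = 2 := by decide

/-- The trace as a trilinear form in the arc matrices. -/
def L0 (U : Fin 4 → Matrix ι ι R) : MultilinearMap R (fun _ : Fin 3 => Matrix ι ι R) R where
  toFun M := (U 0 * M 0 * U 1 * M 1 * U 2 * M 2 * U 3).trace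
  map_update_add' := by
    intro _ M m a b
    obtain rfl | rfl | rfl := fin3 m
    · rw [Function.update_self, Function.update_self, Function.update_self,
        Function.update_of_ne h01.symm, Function.update_of_ne h01.symm,
        Function.update_of_ne h01.symm, Function.update_of_ne h02.symm,
        Function.update_of_ne h02.symm, Function.update_of_ne h02.symm]
      simp only [mul_add, add_mul, Matrix.trace_add]
    · rw [Function.update_self, Function.update_self, Function.update_self,
        Function.update_of_ne h01, Function.update_of_ne h01,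
        Function.update_of_ne h01, Function.update_of_ne h12.symm,
        Function.update_of_ne h12.symm, Function.update_of_ne h12.symm]
      simp only [mul_add, add_mul, Matrix.trace_add]
    · rw [Function.update_self, Function.update_self, Function.update_self,
        Function.update_of_ne h02, Function.update_of_ne h02,
        Function.update_of_ne h02, Function.update_of_ne h12,
        Function.update_of_ne h12, Function.update_of_ne h12]
      simp only [mul_add, add_mul, Matrix.trace_add]
  map_update_smul' := by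
    intro _ M m c a
    obtain rfl | rfl | rfl := fin3 m
    · rw [Function.update_self, Function.update_self,
        Function.update_of_ne h01.symm, Function.update_of_ne h01.symm,
        Function.update_of_ne h02.symm, Function.update_of_ne h02.symm]
      simp only [Matrix.mul_smul, Matrix.smul_mul, Matrix.trace_smul]
    · rw [Function.update_self, Function.update_self,
        Function.update_of_ne h01, Function.update_of_ne h01,
        Function.update_of_ne h12.symm, Function.update_of_ne h12.symm]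
      simp only [Matrix.mul_smul, Matrix.smul_mul, Matrix.trace_smul]
    · rw [Function.update_self, Function.update_self,
        Function.update_of_ne h02, Function.update_of_ne h02,
        Function.update_of_ne h12, Function.update_of_ne h12]
      simp only [Matrix.mul_smul, Matrix.smul_mul, Matrix.trace_smul]

theorem L0_expand (U : Fin 4 → Matrix ι ι R) (τ : Equiv.Perm (Fin 3))
    (M : Fin 3 → Matrix ι ι R) :
    L0 U (fun r => M (τ r)) = ∑ e : Fin 3 → ι × ι,
      (∏ m, M m (e m).1 (e m).2) * L0 U (fun r => Matrix.single (e (τ r)).1 (e (τ r)).2 1) := by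
  classical
  have h1 : (fun r => M (τ r)) = fun r => ∑ p : ι × ι,
      M (τ r) p.1 p.2 • Matrix.single p.1 p.2 (1 : R) := by
    funext r
    rw [Fintype.sum_prod_type]
    conv_lhs => rw [Matrix.matrix_eq_sum_single (M (τ r))]
    refine sum_congr rfl fun i _ => sum_congr rfl fun j _ => ?_
    rw [Matrix.smul_single, smul_eq_mul, mul_one]
  rw [h1, MultilinearMap.map_sum]
  have h2 : ∀ e : Fin 3 → ι × ι,
      (L0 U fun r => M (τ r) (e r).1 (e r).2 • Matrix.single (e r).1 (e r).2 (1 : R)) =
      (∏ r, M (τ r) (e r).1 (e r).2) * L0 U (fun r => Matrix.single (e r).1 (e r).2 1) := by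
    intro e
    rw [MultilinearMap.map_smul_univ (L0 U) (fun r => M (τ r) (e r).1 (e r).2)
      (fun r => Matrix.single (e r).1 (e r).2 (1 : R)), smul_eq_mul]
  simp only [h2]
  rw [← Equiv.sum_comp (Equiv.arrowCongr τ.symm (Equiv.refl (ι × ι)))]
  refine sum_congr rfl fun e _ => ?_
  have h3 : ∀ r, (Equiv.arrowCongr τ.symm (Equiv.refl (ι × ι)) e) r = e (τ r) := fun r => by
    simp [Equiv.arrowCongr]
  simp only [h3]
  congr 1
  exact Equiv.prod_comp τ fun m => M m (e m).1 (e m).2

/-! ## The six words -/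

/-- The value of the word of `a_ij a_kl` with the states `a, b`. -/
def vl (U : Fin 4 → Matrix ι ι R) (τ : Equiv.Perm (Fin 3)) (a b : K) (i j k l : Fin 3) : R :=
  L0 U (fun r => em A B a i j (τ r) * em A B b k l (τ r))

theorem vl_eq (U : Fin 4 → Matrix ι ι R) (τ : Equiv.Perm (Fin 3)) (a b : K) (i j k l : Fin 3) :
    vl A B U τ a b i j k l = ∑ e : Fin 3 → ι × ι,
      ((em A B a i j 0 * em A B b k l 0) (e 0).1 (e 0).2 *
        (em A B a i j 1 * em A B b k l 1) (e 1).1 (e 1).2 *
        (em A B a i j 2 * em A B b k l 2) (e 2).1 (e 2).2) *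
      L0 U (fun r => Matrix.single (e (τ r)).1 (e (τ r)).2 1) := by
  unfold vl
  rw [L0_expand U τ (fun m => em A B a i j m * em A B b k l m)]
  refine sum_congr rfl fun e _ => ?_
  rw [Fin.prod_univ_three]

theorem six_zero (h : CYBE A B) (U : Fin 4 → Matrix ι ι R) (τ : Equiv.Perm (Fin 3)) :
    (∑ a, ∑ b, vl A B U τ a b 0 1 0 2) - (∑ a, ∑ b, vl A B U τ a b 0 2 0 1) +
    ((∑ a, ∑ b, vl A B U τ a b 0 1 1 2) - (∑ a, ∑ b, vl A B U τ a b 1 2 0 1)) +
    ((∑ a, ∑ b, vl A B U τ a b 0 2 1 2) - (∑ a, ∑ b, vl A B U τ a b 1 2 0 2)) = 0 := by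
  rw [sum_comm (f := fun a b => vl A B U τ a b 0 2 0 1),
    sum_comm (f := fun a b => vl A B U τ a b 1 2 0 1),
    sum_comm (f := fun a b => vl A B U τ a b 1 2 0 2)]
  simp only [← sum_sub_distrib, ← sum_add_distrib]
  have key : ∀ a b : K,
      vl A B U τ a b 0 1 0 2 - vl A B U τ b a 0 2 0 1 +
      (vl A B U τ a b 0 1 1 2 - vl A B U τ b a 1 2 0 1) +
      (vl A B U τ a b 0 2 1 2 - vl A B U τ b a 1 2 0 2) =
      ∑ e : Fin 3 → ι × ι,
        ((A a * A b - A b * A a) (e 0).1 (e 0).2 * B a (e 1).1 (e 1).2 * B b (e 2).1 (e 2).2 +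
        A a (e 0).1 (e 0).2 * (B a * A b - A b * B a) (e 1).1 (e 1).2 * B b (e 2).1 (e 2).2 +
        A a (e 0).1 (e 0).2 * A b (e 1).1 (e 1).2 * (B a * B b - B b * B a) (e 2).1 (e 2).2) *
        L0 U (fun r => Matrix.single (e (τ r)).1 (e (τ r)).2 1) := by
    intro a b
    simp only [vl_eq, ← sum_sub_distrib, ← sum_add_distrib]
    refine sum_congr rfl fun e _ => ?_
    simp [em, Matrix.sub_apply]
    ring
  simp only [key]
  have e1 : ∀ a : K, ∑ b, ∑ e : Fin 3 → ι × ι,
        ((A a * A b - A b * A a) (e 0).1 (e 0).2 * B a (e 1).1 (e 1).2 * B b (e 2).1 (e 2).2 +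
        A a (e 0).1 (e 0).2 * (B a * A b - A b * B a) (e 1).1 (e 1).2 * B b (e 2).1 (e 2).2 +
        A a (e 0).1 (e 0).2 * A b (e 1).1 (e 1).2 * (B a * B b - B b * B a) (e 2).1 (e 2).2) *
        L0 U (fun r => Matrix.single (e (τ r)).1 (e (τ r)).2 1) =
      ∑ e : Fin 3 → ι × ι, (∑ b,
        ((A a * A b - A b * A a) (e 0).1 (e 0).2 * B a (e 1).1 (e 1).2 * B b (e 2).1 (e 2).2 +
        A a (e 0).1 (e 0).2 * (B a * A b - A b * B a) (e 1).1 (e 1).2 * B b (e 2).1 (e 2).2 +
        A a (e 0).1 (e 0).2 * A b (e 1).1 (e 1).2 * (B a * B b - B b * B a) (e 2).1 (e 2).2)) *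
        L0 U (fun r => Matrix.single (e (τ r)).1 (e (τ r)).2 1) := by
    intro a
    rw [sum_comm]
    refine sum_congr rfl fun e _ => ?_
    rw [sum_mul]
  simp only [e1]
  rw [sum_comm]
  refine sum_eq_zero fun e _ => ?_
  rw [← sum_mul]
  have := h (e 0).1 (e 0).2 (e 1).1 (e 1).2 (e 2).1 (e 2).2
  rw [this, zero_mul]

/-! ## Sums over states -/

theorem sum_update (x : Fin d) (F : (Fin d → K) → R) :
    ∑ κ, ∑ k, F (Function.update κ x k) = (Fintype.card K : R) * ∑ κ, F κ := by
  classical
  rw [← Fintype.sum_prod_type']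
  let e : (Fin d → K) × K ≃ (Fin d → K) × K :=
    { toFun := fun z => (Function.update z.1 x z.2, z.1 x)
      invFun := fun z => (Function.update z.1 x z.2, z.1 x)
      left_inv := fun z => by simp
      right_inv := fun z => by simp }
  have h1 : ∑ z : (Fin d → K) × K, F (Function.update z.1 x z.2) =
      ∑ z : (Fin d → K) × K, F z.1 := Equiv.sum_comp e (fun z => F z.1)
  rw [h1, Fintype.sum_prod_type (fun z : (Fin d → K) × K => F z.1), mul_sum]
  refine sum_congr rfl fun κ _ => ?_
  simp

theorem sum_update₂ (x y : Fin d) (F : (Fin d → K) → R) :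
    ∑ κ, ∑ a, ∑ b, F (Function.update (Function.update κ x a) y b) =
      (Fintype.card K : R) * ((Fintype.card K : R) * ∑ κ, F κ) := by
  rw [sum_update x (fun κ => ∑ b, F (Function.update κ y b)), sum_update y F]

theorem trw_six (u : Fin 4 → List (Pt d)) (τ : Equiv.Perm (Fin 3)) {x y : Fin d} (hxy : x ≠ y)
    (hu : ∀ m, ∀ p ∈ u m, p.1 ≠ x ∧ p.1 ≠ y) (i j k l : Fin 3) :
    (Fintype.card K : R) * ((Fintype.card K : R) * trw A B (pr u τ x y i j k l)) =
      ∑ κ : Fin d → K, ∑ a, ∑ b, vl A B (fun m => pw A B κ (u m)) τ a b i j k l := by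
  rw [trw_eq, ← sum_update₂ x y]
  refine sum_congr rfl fun κ _ => sum_congr rfl fun a _ => sum_congr rfl fun b _ => ?_
  set κ' := Function.update (Function.update κ x a) y b with hκ'
  have hx : κ' x = a := by
    rw [hκ', Function.update_of_ne hxy, Function.update_self]
  have hy : κ' y = b := by
    rw [hκ', Function.update_self]
  have hU : ∀ m, pw A B κ' (u m) = pw A B κ (u m) := fun m =>
    pw_congr A B fun p hp => by
      rw [hκ', Function.update_of_ne (hu m p hp).2, Function.update_of_ne (hu m p hp).1]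
  unfold pr
  simp only [pw_append, pw_ep, hU, hx, hy]
  rfl

end

end Pool.Agent.Helper88.AD
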