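import Pool.Agent.Helper88.AD.Trace

/-!
# Packet TRACE: the trace weight is well defined on arrow diagrams on the circle modulo 6T
-/

namespace Pool.Agent.Helper88.AD

open Finset

noncomputable section

/-! ## Endpoints of the six words -/

theorem count_ep {d : ℕ} (x : Fin d) {i j : Fin 3} (hij : i ≠ j) (τ : Equiv.Perm (Fin 3))
    (z : Pt d) :
    (ep x i j (τ 0)).count z + (ep x i j (τ 1)).count z + (ep x i j (τ 2)).count z =
      [((x, true) : Pt d)].count z + [((x, false) : Pt d)].count z := by
  have h1 : ∑ r, (ep x i j (τ r)).count z = ∑ m, (ep x i j m).count z :=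
    Equiv.sum_comp τ (fun m => (ep x i j m).count z)
  rw [Fin.sum_univ_three] at h1
  rw [h1]
  have h2 : ∀ m : Fin 3, (ep x i j m).count z =
      (if m = i then [((x, true) : Pt d)].count z else 0) +
      (if m = j then [((x, false) : Pt d)].count z else 0) := by
    intro m
    unfold ep
    by_cases hi : m = i
    · have hj : m ≠ j := fun h => hij (hi.symm.trans h)
      simp [hi, hij]
    · by_cases hj : m = j
      · simp [hj, hij.symm]
      · simp [hi, hj]
  simp only [h2, sum_add_distrib, sum_ite_eq', mem_univ, if_true]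

theorem count_pr {d : ℕ} (u : Fin 4 → List (Pt d)) (τ : Equiv.Perm (Fin 3)) (x y : Fin d)
    {i j k l : Fin 3} (hij : i ≠ j) (hkl : k ≠ l) (z : Pt d) :
    (pr u τ x y i j k l).count z = (u 0).count z + (u 1).count z + (u 2).count z + (u 3).count z +
      ([((x, true) : Pt d)].count z + [((x, false) : Pt d)].count z) +
      ([((y, true) : Pt d)].count z + [((y, false) : Pt d)].count z) := by
  have h1 := count_ep x hij τ z
  have h2 := count_ep y hkl τ z
  unfold pr
  simp only [List.count_append]
  omega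

theorem isD_pr {d : ℕ} (u : Fin 4 → List (Pt d)) (τ : Equiv.Perm (Fin 3)) (x y : Fin d)
    {i j k l i' j' k' l' : Fin 3} (hij : i ≠ j) (hkl : k ≠ l) (hij' : i' ≠ j') (hkl' : k' ≠ l') :
    IsD (pr u τ x y i j k l) ↔ IsD (pr u τ x y i' j' k' l') := by
  unfold IsD
  simp only [count_pr u τ x y hij hkl, count_pr u τ x y hij' hkl']

theorem pr_facts {d : ℕ} {u : Fin 4 → List (Pt d)} {τ : Equiv.Perm (Fin 3)} {x y : Fin d}
    (h : IsD (pr u τ x y 0 1 0 2)) :
    x ≠ y ∧ ∀ m, ∀ p ∈ u m, p.1 ≠ x ∧ p.1 ≠ y := by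
  have hc : ∀ z, _ := fun z => (count_pr u τ x y (i := 0) (j := 1) (k := 0) (l := 2)
    h01 h02 z).symm.trans (h z)
  constructor
  · rintro rfl
    have := hc (x, true)
    simp at this
  · intro m p hp
    have hm : 1 ≤ (u 0).count p + (u 1).count p + (u 2).count p + (u 3).count p := by
      have h1 : 1 ≤ (u m).count p := List.one_le_count_iff.mpr hp
      have h4 : ∀ m : Fin 4, m = 0 ∨ m = 1 ∨ m = 2 ∨ m = 3 := by decide
      obtain rfl | rfl | rfl | rfl := h4 m <;> omega
    have h2 := hc p
    constructor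
    · intro hx
      have h3 : 1 ≤ [((x, true) : Pt d)].count p + [((x, false) : Pt d)].count p := by
        obtain ⟨p1, b⟩ := p
        cases hx
        cases b <;> simp
      omega
    · intro hy
      have h3 : 1 ≤ [((y, true) : Pt d)].count p + [((y, false) : Pt d)].count p := by
        obtain ⟨p1, b⟩ := p
        cases hy
        cases b <;> simp
      omega

/-! ## Renaming and rotation -/

theorem isD_ren {d : ℕ} (σ : Equiv.Perm (Fin d)) (w : List (Pt d)) : IsD (ren σ w) ↔ IsD w := by
  have hinj : Function.Injective (fun p : Pt d => ((σ p.1, p.2) : Pt d)) := by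
    rintro ⟨a, b⟩ ⟨a', b'⟩ h
    simp only [Prod.mk.injEq] at h
    rw [σ.injective h.1, h.2]
  have hc : ∀ p : Pt d, (ren σ w).count (σ p.1, p.2) = w.count p := fun p =>
    List.count_map_of_injective w _ hinj p
  constructor
  · intro h p
    rw [← hc p]
    exact h _
  · intro h p
    have := hc (σ.symm p.1, p.2)
    simp only [Equiv.apply_symm_apply] at this
    rw [this]
    exact h _

section

variable {K ι R : Type} [Fintype K] [Fintype ι] [DecidableEq ι] [CommRing R]

theorem trw_ren {d : ℕ} (A B : K → Matrix ι ι R) (σ : Equiv.Perm (Fin d)) (w : List (Pt d)) :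
    trw A B (ren σ w) = trw A B w := by
  rw [trw_eq, trw_eq, ← Equiv.sum_comp (Equiv.arrowCongr σ (Equiv.refl K))]
  refine sum_congr rfl fun κ _ => ?_
  congr 1
  unfold pw ren
  rw [List.map_map]
  congr 1
  refine List.map_congr_left fun p _ => ?_
  simp [Equiv.arrowCongr]

theorem trw_rot {d : ℕ} (A B : K → Matrix ι ι R) (p : Pt d) (w : List (Pt d)) :
    trw A B (w ++ [p]) = trw A B (p :: w) := by
  rw [trw_eq, trw_eq]
  refine sum_congr rfl fun κ _ => ?_
  have h1 : pw A B κ (p :: w) = pw A B κ [p] * pw A B κ w := by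
    rw [← pw_append]
    rfl
  rw [pw_append, h1, Matrix.trace_mul_comm]

end

/-! ## The functional -/

theorem stmtTrace : StmtTrace := by
  classical
  intro K ι R _ _ _ _ _ A B hCY d
  set f : (Dg d →₀ ℚ) →ₗ[ℚ] R := Finsupp.linearCombination ℚ (fun w : Dg d => trw A B w.1) with hf
  have hfe : ∀ w : List (Pt d), IsD w → f (el w) = trw A B w := by
    intro w hw
    rw [el_of hw, hf, Finsupp.linearCombination_single, one_smul]
  refine ⟨f, ?_, hfe⟩
  -- the generators
  have hren : ∀ (w : List (Pt d)) (σ : Equiv.Perm (Fin d)), f (el w - el (ren σ w)) = 0 := by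
    intro w σ
    by_cases hw : IsD w
    · rw [map_sub, hfe w hw, hfe _ ((isD_ren σ w).mpr hw), trw_ren, sub_self]
    · rw [el_of_not hw, el_of_not (fun h => hw ((isD_ren σ w).mp h)), sub_self, map_zero]
  have hrot : ∀ (p : Pt d) (w : List (Pt d)), f (el (p :: w) - el (w ++ [p])) = 0 := by
    intro p w
    have hperm : (p :: w).Perm (w ++ [p]) := by
      have := List.perm_append_comm (l₁ := [p]) (l₂ := w)
      simpa using this
    by_cases hw : IsD (p :: w)
    · rw [map_sub, hfe _ hw, hfe _ ((isD_perm hperm).mp hw), trw_rot, sub_self]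
    · rw [el_of_not hw, el_of_not (fun h => hw ((isD_perm hperm).mpr h)), sub_self, map_zero]
  have hsix : ∀ (u : Fin 4 → List (Pt d)) (τ : Equiv.Perm (Fin 3)) (x y : Fin d),
      f (sixT u τ x y) = 0 := by
    intro u τ x y
    have g0 : IsD (pr u τ x y 0 2 0 1) ↔ IsD (pr u τ x y 0 1 0 2) := isD_pr u τ x y h02 h01 h01 h02
    have g1 : IsD (pr u τ x y 0 1 1 2) ↔ IsD (pr u τ x y 0 1 0 2) := isD_pr u τ x y h01 h12 h01 h02
    have g2 : IsD (pr u τ x y 1 2 0 1) ↔ IsD (pr u τ x y 0 1 0 2) := isD_pr u τ x y h12 h01 h01 h02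
    have g3 : IsD (pr u τ x y 0 2 1 2) ↔ IsD (pr u τ x y 0 1 0 2) := isD_pr u τ x y h02 h12 h01 h02
    have g4 : IsD (pr u τ x y 1 2 0 2) ↔ IsD (pr u τ x y 0 1 0 2) := isD_pr u τ x y h12 h02 h01 h02
    by_cases hw : IsD (pr u τ x y 0 1 0 2)
    · obtain ⟨hxy, hu⟩ := pr_facts hw
      unfold sixT
      rw [map_add, map_add, map_sub, map_sub, map_sub, hfe _ hw, hfe _ (g0.mpr hw),
        hfe _ (g1.mpr hw), hfe _ (g2.mpr hw), hfe _ (g3.mpr hw), hfe _ (g4.mpr hw)]
      -- multiply by the square of the number of states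
      rcases isEmpty_or_nonempty K with hK | hK
      · have hz : ∀ w : List (Pt d), trw A B w = 0 := by
          intro w
          rw [trw_eq]
          haveI : IsEmpty (Fin d → K) := ⟨fun κ => hK.false (κ x)⟩
          exact Fintype.sum_empty _
        simp [hz]
      · have hc : ((Fintype.card K : ℚ)) ≠ 0 := by
          exact_mod_cast Fintype.card_ne_zero
        have hinv : ∀ z : R, (Fintype.card K : R) * z = 0 → z = 0 := by
          intro z hz
          have h1 : (algebraMap ℚ R ((Fintype.card K : ℚ))⁻¹) * (Fintype.card K : R) = 1 := by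
            have h2 : (Fintype.card K : R) = algebraMap ℚ R (Fintype.card K : ℚ) := by
              rw [map_natCast]
            rw [h2, ← map_mul, inv_mul_cancel₀ hc, map_one]
          calc z = (algebraMap ℚ R ((Fintype.card K : ℚ))⁻¹) * (Fintype.card K : R) * z := by
                rw [h1, one_mul]
            _ = (algebraMap ℚ R ((Fintype.card K : ℚ))⁻¹) * ((Fintype.card K : R) * z) := by ring
            _ = 0 := by rw [hz, mul_zero]
        apply hinv
        apply hinv
        have t0 := trw_six A B u τ hxy hu 0 1 0 2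
        have t1 := trw_six A B u τ hxy hu 0 2 0 1
        have t2 := trw_six A B u τ hxy hu 0 1 1 2
        have t3 := trw_six A B u τ hxy hu 1 2 0 1
        have t4 := trw_six A B u τ hxy hu 0 2 1 2
        have t5 := trw_six A B u τ hxy hu 1 2 0 2
        have key : ∑ κ : Fin d → K,
            ((∑ a, ∑ b, vl A B (fun m => pw A B κ (u m)) τ a b 0 1 0 2) -
              (∑ a, ∑ b, vl A B (fun m => pw A B κ (u m)) τ a b 0 2 0 1) +
            ((∑ a, ∑ b, vl A B (fun m => pw A B κ (u m)) τ a b 0 1 1 2) -
              (∑ a, ∑ b, vl A B (fun m => pw A B κ (u m)) τ a b 1 2 0 1)) +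
            ((∑ a, ∑ b, vl A B (fun m => pw A B κ (u m)) τ a b 0 2 1 2) -
              (∑ a, ∑ b, vl A B (fun m => pw A B κ (u m)) τ a b 1 2 0 2))) = 0 :=
          sum_eq_zero fun κ _ => six_zero A B hCY (fun m => pw A B κ (u m)) τ
        simp only [sum_add_distrib, sum_sub_distrib] at key
        rw [← t0, ← t1, ← t2, ← t3, ← t4, ← t5] at key
        linear_combination key
    · unfold sixT
      rw [el_of_not hw, el_of_not (mt g0.mp hw), el_of_not (mt g1.mp hw), el_of_not (mt g2.mp hw),
        el_of_not (mt g3.mp hw), el_of_not (mt g4.mp hw)]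
      simp
  have hle : relS d ≤ LinearMap.ker f := by
    unfold relS relI
    refine sup_le ?_ ?_
    · rw [Submodule.span_le]
      rintro v (⟨w, σ, rfl⟩ | ⟨u, τ, x, y, rfl⟩)
      · exact hren w σ
      · exact hsix u τ x y
    · rw [Submodule.span_le]
      rintro v ⟨p, w, rfl⟩
      exact hrot p w
  exact fun x hx => hle hx

end

end Pool.Agent.Helper88.AD
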